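import Pool.Agent.QSB.StmtsV

/-!
# Row NAS of squad QSB
-/

set_option autoImplicit false

namespace Pool.Agent.QSB.H10

open Matrix Finset Pool.Agent.QSX Pool.Agent.QSN

section

variable {X : Dat}

theorem pos (gwb : GwbStmt) (S : Sym X) {ρ : X.b →ₗ[ℝ] ℝ} (h : IsRt X ρ) : 0 < ρ S.a₀ := by
  obtain ⟨x, hx⟩ := h
  exact ((gwb X S).1 ρ x hx).2

theorem ne_zero (gwb : GwbStmt) (S : Sym X) {ρ : X.b →ₗ[ℝ] ℝ} (h : IsRt X ρ) : ρ ≠ 0 := by
  intro h0
  have h1 := pos gwb S h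
  rw [h0] at h1
  exact lt_irrefl _ h1

theorem add_neg (gwb : GwbStmt) (int : IntStmt) (S : Sym X) {σ τ : X.b →ₗ[ℝ] ℝ} (hσ : IsRt X σ)
    (hτ : IsRt X τ) (h : ip X τ σ < 0) : IsRt X (σ + τ) := by
  have hp1 := pos gwb S hσ
  have hp2 := pos gwb S hτ
  have hn := ne_zero gwb S hσ
  obtain ⟨x, hx⟩ := hσ
  obtain ⟨z, hz⟩ := hτ
  have gx := ((gwb X S).1 σ x hx).1
  have gz := ((gwb X S).1 τ z hz).1
  have h1 := (int X S σ τ x z gx hn gz).2.1 h
  have h2 := (gwb X S).2.2.2.1 σ τ x z gx gz h1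
  exact ⟨_, (gwb X S).2.1 _ _ h2 (by rw [LinearMap.add_apply]; linarith)⟩

theorem add_two (gwb : GwbStmt) (int : IntStmt) (S : Sym X) {σ τ : X.b →ₗ[ℝ] ℝ} (hσ : IsRt X σ)
    (hτ : IsRt X τ) (h : ip X τ σ = - ip X σ σ) : IsRt X ((2 : ℝ) • σ + τ) := by
  have hp1 := pos gwb S hσ
  have hp2 := pos gwb S hτ
  have hn := ne_zero gwb S hσ
  obtain ⟨x, hx⟩ := hσ
  obtain ⟨z, hz⟩ := hτ
  have gx := ((gwb X S).1 σ x hx).1
  have gz := ((gwb X S).1 τ z hz).1
  have h1 := (int X S σ τ x z gx hn gz).2.2 h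
  have h0 : x * z - z * x ≠ 0 := by
    intro h0
    apply h1
    rw [h0, mul_zero, zero_mul, sub_zero]
  have h2 := (gwb X S).2.2.2.1 σ τ x z gx gz h0
  have h3 := (gwb X S).2.2.2.1 σ (σ + τ) x _ gx h2 h1
  have h4 : (2 : ℝ) • σ + τ = σ + (σ + τ) := by
    rw [two_smul, add_assoc]
  rw [h4]
  exact ⟨_, (gwb X S).2.1 _ _ h3 (by rw [LinearMap.add_apply, LinearMap.add_apply]; linarith)⟩

theorem integ (gwb : GwbStmt) (int : IntStmt) (S : Sym X) {μ ν : X.b →ₗ[ℝ] ℝ} (hμ : IsRt X μ)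
    (hν : IsRt X ν) : ∃ n : ℤ, 2 * ip X ν μ = n * ip X μ μ := by
  have hn := ne_zero gwb S hμ
  obtain ⟨x, hx⟩ := hμ
  obtain ⟨z, hz⟩ := hν
  exact (int X S μ ν x z ((gwb X S).1 μ x hx).1 hn ((gwb X S).1 ν z hz).1).1

theorem npr_of_le (gwb : GwbStmt) (S : Sym X) {ρ σ : X.b →ₗ[ℝ] ℝ} (hρ : IsRt X ρ)
    (hσ : IsRt X σ) (h : ip X ρ σ ≤ 0) : NPr ρ σ := by
  have hp1 := pos gwb S hρ
  have hp2 := pos gwb S hσ
  constructor
  · intro c hc
    have h1 : ρ S.a₀ = c * σ S.a₀ := by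
      rw [hc, LinearMap.smul_apply, smul_eq_mul]
    have hc0 : 0 < c := by
      rw [h1] at hp1
      exact (pos_iff_pos_of_mul_pos hp1).mpr hp2
    have h2 := ip_self_pos (ne_zero gwb S hσ)
    rw [hc, ip_smul_left] at h
    have := mul_pos hc0 h2
    linarith
  · intro c hc
    have h1 : σ S.a₀ = c * ρ S.a₀ := by
      rw [hc, LinearMap.smul_apply, smul_eq_mul]
    have hc0 : 0 < c := by
      rw [h1] at hp2
      exact (pos_iff_pos_of_mul_pos hp2).mpr hp1
    have h2 := ip_self_pos (ne_zero gwb S hρ)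
    rw [hc, ip_smul_right] at h
    have := mul_pos hc0 h2
    linarith

/-- `2 ip β α = n |α|²` with `n ≤ -2` -/
theorem two_add (gwb : GwbStmt) (int : IntStmt) (S : Sym X) {α β : X.b →ₗ[ℝ] ℝ} (hα : IsRt X α)
    (hβ : IsRt X β) {n : ℤ} (hn : 2 * ip X β α = n * ip X α α) (h2 : n ≤ -2) :
    IsRt X ((2 : ℝ) • α + β) := by
  have hA := ip_self_pos (ne_zero gwb S hα)
  rcases Int.lt_or_eq_of_le h2 with h | h
  · have hn3 : (n : ℝ) ≤ -3 := by
      have : n ≤ -3 := by omega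
      exact_mod_cast this
    have h4 : 2 * ip X β α ≤ -3 * ip X α α := by
      rw [hn]
      exact mul_le_mul_of_nonneg_right hn3 hA.le
    have h5 : ip X β α < 0 := by nlinarith
    have h6 := add_neg gwb int S hα hβ h5
    have h7 : ip X (α + β) α < 0 := by
      rw [ip_add_left]
      nlinarith
    have h8 := add_neg gwb int S hα h6 h7
    have h9 : (2 : ℝ) • α + β = α + (α + β) := by
      rw [two_smul, add_assoc]
    rw [h9]
    exact h8
  · apply add_two gwb int S hα hβ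
    rw [h] at hn
    push_cast at hn
    linarith

theorem ip_list {μ : X.b →ₗ[ℝ] ℝ} (L : List (X.b →ₗ[ℝ] ℝ)) (h : ∀ l ∈ L, ip X μ l = 0) :
    ip X μ L.sum = 0 := by
  induction L with
  | nil =>
    rw [List.sum_nil]
    have h1 := ip_smul_right (X := X) 0 μ (0 : X.b →ₗ[ℝ] ℝ)
    rwa [zero_smul, zero_mul] at h1
  | cons a L ih =>
    rw [List.sum_cons, ip_add_right, h a List.mem_cons_self,
      ih (fun l hl => h l (List.mem_cons_of_mem a hl)), add_zero]

theorem list_one {α : X.b →ₗ[ℝ] ℝ} (L : List (X.b →ₗ[ℝ] ℝ)) (h : ∀ l ∈ L, l = α) :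
    ∃ c : ℝ, L.sum = c • α := by
  induction L with
  | nil => exact ⟨0, by rw [List.sum_nil, zero_smul]⟩
  | cons a L ih =>
    obtain ⟨c, hc⟩ := ih (fun l hl => h l (List.mem_cons_of_mem a hl))
    exact ⟨1 + c, by rw [List.sum_cons, hc, h a List.mem_cons_self, add_smul, one_smul]⟩

theorem list_two {α β : X.b →ₗ[ℝ] ℝ} (L : List (X.b →ₗ[ℝ] ℝ)) (h : ∀ l ∈ L, l = α ∨ l = β) :
    ∃ a b : ℕ, L.sum = (a : ℝ) • α + (b : ℝ) • β := by
  induction L with
  | nil => exact ⟨0, 0, by simp⟩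
  | cons c L ih =>
    obtain ⟨a, b, hab⟩ := ih (fun l hl => h l (List.mem_cons_of_mem c hl))
    rcases h c List.mem_cons_self with h1 | h1
    · refine ⟨a + 1, b, ?_⟩
      rw [List.sum_cons, hab, h1]
      push_cast
      rw [add_smul, one_smul]
      abel
    · refine ⟨a, b + 1, ?_⟩
      rw [List.sum_cons, hab, h1]
      push_cast
      rw [add_smul, one_smul]
      abel

/-- the arithmetic of step (5) -/
theorem arith (a b : ℕ) (n k : ℤ) (q : ℤ) (hq : q = (a : ℤ) ^ 2 - a * b + b ^ 2) (hq0 : 0 < q)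
    (hn : n * q = 2 * a - b) (hk : k * q = 2 * b - a) :
    (a = 1 ∧ b = 0) ∨ (a = 0 ∧ b = 1) ∨ (a = 1 ∧ b = 1) ∨ (a = 1 ∧ b = 2) ∨ (a = 2 ∧ b = 1) := by
  have e1 : q * (4 - n ^ 2 * q) = 3 * (b : ℤ) ^ 2 := by
    have h : (n * q) ^ 2 = (2 * (a : ℤ) - b) ^ 2 := by rw [hn]
    nlinarith [h]
  have e2 : q * (4 - k ^ 2 * q) = 3 * (a : ℤ) ^ 2 := by
    have h : (k * q) ^ 2 = (2 * (b : ℤ) - a) ^ 2 := by rw [hk]
    nlinarith [h]
  by_cases hn0 : n = 0
  · have hb : (b : ℤ) = 2 * a := by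
      rw [hn0] at hn
      linarith
    have hq3 : q = 3 * (a : ℤ) ^ 2 := by
      rw [hq, hb]
      ring
    have ha0 : (a : ℤ) ≠ 0 := by
      intro h
      rw [h] at hq3
      norm_num at hq3
      omega
    have h3 : (a : ℤ) * (k * a - 1) = 0 := by
      have h4 : k * (3 * (a : ℤ) ^ 2) = 3 * a := by
        rw [← hq3, hk, hb]
        ring
      nlinarith [h4]
    have h5 : k * (a : ℤ) = 1 := by
      rcases mul_eq_zero.mp h3 with h | h
      · exact absurd h ha0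
      · linarith
    have h6 : (a : ℤ) = 1 := by
      have h7 : (a : ℤ) ∣ 1 := ⟨k, by linarith⟩
      exact Int.eq_one_of_dvd_one (Int.natCast_nonneg a) h7
    right; right; right; left
    constructor
    · exact_mod_cast h6
    · rw [h6] at hb
      omega
  · by_cases hk0 : k = 0
    · have ha : (a : ℤ) = 2 * b := by
        rw [hk0] at hk
        linarith
      have hq3 : q = 3 * (b : ℤ) ^ 2 := by
        rw [hq, ha]
        ring
      have hb0 : (b : ℤ) ≠ 0 := by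
        intro h
        rw [h] at hq3
        norm_num at hq3
        omega
      have h3 : (b : ℤ) * (n * b - 1) = 0 := by
        have h4 : n * (3 * (b : ℤ) ^ 2) = 3 * b := by
          rw [← hq3, hn, ha]
          ring
        nlinarith [h4]
      have h5 : n * (b : ℤ) = 1 := by
        rcases mul_eq_zero.mp h3 with h | h
        · exact absurd h hb0
        · linarith
      have h6 : (b : ℤ) = 1 := by
        have h7 : (b : ℤ) ∣ 1 := ⟨n, by linarith⟩
        exact Int.eq_one_of_dvd_one (Int.natCast_nonneg b) h7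
      right; right; right; right
      constructor
      · rw [h6] at ha
        omega
      · exact_mod_cast h6
    · have hn1 : 1 ≤ n ^ 2 := by
        have := sq_pos_of_ne_zero hn0
        omega
      have hk1 : 1 ≤ k ^ 2 := by
        have := sq_pos_of_ne_zero hk0
        omega
      have f1 : 3 * (b : ℤ) ^ 2 ≤ 4 := by
        rw [← e1]
        nlinarith [mul_le_mul_of_nonneg_right hn1 (mul_pos hq0 hq0).le, sq_nonneg (q - 2)]
      have f2 : 3 * (a : ℤ) ^ 2 ≤ 4 := by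
        rw [← e2]
        nlinarith [mul_le_mul_of_nonneg_right hk1 (mul_pos hq0 hq0).le, sq_nonneg (q - 2)]
      have g1 : b ≤ 1 := by
        by_contra hc
        have : (2 : ℤ) ≤ b := by omega
        nlinarith
      have g2 : a ≤ 1 := by
        by_contra hc
        have : (2 : ℤ) ≤ a := by omega
        nlinarith
      have hab : ¬ (a = 0 ∧ b = 0) := by
        rintro ⟨h, h'⟩
        rw [h, h'] at hq
        norm_num at hq
        omega
      omega

end

/-- **Row NAS** -/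
theorem nas (gwb : GwbStmt) (int : IntStmt) (wtr : WtrStmt) (_smr : SmrStmt) (spr : SprStmt)
    (sup : SupStmt) : NasStmt := by
  intro X hS R hNR hA2 α hα
  obtain ⟨S⟩ := hS
  have hS : Nonempty (Sym X) := ⟨S⟩
  have hR : Nonempty (RBas X) := ⟨R⟩
  by_cases hone : ∀ x y, RtV X α x → RtV X α y → ∃ c : ℝ, y = c • x
  · exact Or.inl hone
  right
  push Not at hone
  obtain ⟨x, y, hx, hy, hxy⟩ := hone
  have hαr : IsRt X α := hα.1
  have hA := ip_self_pos (ne_zero gwb S hαr)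
  -- (0)
  have h0 : ∃ δ₀, IsRt X δ₀ ∧ (∀ c : ℝ, δ₀ ≠ c • α) ∧ ip X α δ₀ ≠ 0 := by
    obtain ⟨l, hl⟩ := ((wtr X R α).2).mp hαr
    rcases hNR l with ⟨l', hl', hip⟩ | hall
    · refine ⟨R.rt l', ((wtr X R _).2).mpr ⟨l', rfl⟩, ?_, ?_⟩
      · rw [hl] at hl'
        exact hl'
      · rw [hl] at hip
        exact hip
    · exfalso
      have hset : {t | R.rt t = α} ⊆ {l} := by
        intro t ht
        rw [Set.mem_setOf_eq] at ht
        rw [Set.mem_singleton_iff]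
        apply hall
        rw [hl, ht]
        exact hA.ne'
      have hsp : ∀ w, WtV X α w → ∃ c : ℝ, c • R.e l = w := by
        intro w hw
        have h1 := (wtr X R α).1 w hw
        have h2 : w ∈ Submodule.span ℝ {R.e l} := by
          refine Submodule.span_mono ?_ h1
          rintro _ ⟨t, ht, rfl⟩
          rw [Set.mem_singleton_iff.mp (hset ht)]
          rfl
        exact Submodule.mem_span_singleton.mp h2
      obtain ⟨a, ha⟩ := hsp x hx.1
      obtain ⟨b, hb⟩ := hsp y hy.1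
      have ha0 : a ≠ 0 := by
        intro h
        apply hx.2
        rw [← ha, h, zero_smul]
      apply hxy (b / a)
      rw [← ha, ← hb, smul_smul, div_mul_cancel₀ _ ha0]
  obtain ⟨δ₀, hδr, hδn, hδi⟩ := h0
  -- (1)
  have h1 : ∃ β, Smp X β ∧ β ≠ α ∧ ip X α β ≠ 0 := by
    by_contra hcon
    push Not at hcon
    have a1 : ∀ β, Smp X β → β ∈ ({α} : Set (X.b →ₗ[ℝ] ℝ)) ∨ β ∈ {β | Smp X β ∧ β ≠ α} := by
      intro β hβ
      by_cases h : β = α
      · left
        exact h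
      · right
        exact ⟨hβ, h⟩
    have a2 : ∀ β ∈ ({α} : Set (X.b →ₗ[ℝ] ℝ)), Smp X β := by
      intro β hβ
      rw [Set.mem_singleton_iff.mp hβ]
      exact hα
    have a3 : ∀ β ∈ {β | Smp X β ∧ β ≠ α}, Smp X β := by
      intro β hβ
      exact hβ.1
    have a4 : ∀ a ∈ ({α} : Set (X.b →ₗ[ℝ] ℝ)), ∀ b ∈ {β | Smp X β ∧ β ≠ α}, ip X a b = 0 := by
      intro a ha b hb
      rw [Set.mem_singleton_iff.mp ha]
      exact hcon b hb.1 hb.2
    rcases sup X hS hR _ _ a1 a2 a3 a4 δ₀ hδr with ⟨L, hL, hs⟩ | ⟨L, hL, hs⟩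
    · obtain ⟨c, hc⟩ := list_one L (fun l hl => hL l hl)
      exact hδn c (hs.symm.trans hc)
    · apply hδi
      rw [← hs]
      exact ip_list L (fun l hl => hcon l (hL l hl).1 (hL l hl).2)
  obtain ⟨β, hβ, hβα, hβi⟩ := h1
  have hβr : IsRt X β := hβ.1
  have hB := ip_self_pos (ne_zero gwb S hβr)
  have hlt : ip X α β < 0 := lt_of_le_of_ne (spr X hS α β hα hβ hβα.symm) hβi
  have hlt' : ip X β α < 0 := by rw [ip_comm]; exact hlt
  have hab : IsRt X (α + β) := add_neg gwb int S hαr hβr hlt'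
  have hnβα : NPr β α := npr_of_le gwb S hβr hαr hlt'.le
  -- (2)
  obtain ⟨n, hn⟩ := integ gwb int S hαr hβr
  by_cases hn2 : n ≤ -2
  · left
    exact ⟨β, hβr, two_add gwb int S hαr hβr hn hn2⟩
  obtain ⟨k, hk⟩ := integ gwb int S hβr hαr
  by_cases hk2 : k ≤ -2
  · right; left
    refine ⟨β, β, hβr, hβr, hnβα, hnβα, hab, hab, ?_⟩
    have h3 := two_add gwb int S hβr hαr hk hk2
    have h4 : α + β + β = (2 : ℝ) • β + α := by
      rw [two_smul]
      abel
    rw [h4]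
    exact h3
  have hn1 : n = -1 := by
    have h3 : (n : ℝ) < 0 := by
      by_contra hc
      have h4 : (0 : ℝ) ≤ n := not_lt.mp hc
      have h5 := mul_nonneg h4 hA.le
      linarith
    have h4 : n < 0 := by exact_mod_cast h3
    omega
  have hk1 : k = -1 := by
    have h3 : (k : ℝ) < 0 := by
      by_contra hc
      have h4 : (0 : ℝ) ≤ k := not_lt.mp hc
      have h5 := mul_nonneg h4 hB.le
      linarith
    have h4 : k < 0 := by exact_mod_cast h3
    omega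
  rw [hn1] at hn
  rw [hk1] at hk
  push_cast at hn hk
  have hba : ip X β α = -(ip X α α) / 2 := by linarith
  have hab' : ip X α β = -(ip X α α) / 2 := by rw [ip_comm]; exact hba
  have hBA : ip X β β = ip X α α := by linarith
  -- (3)
  by_cases h3 : ∃ β', Smp X β' ∧ β' ≠ α ∧ β' ≠ β ∧ ip X α β' ≠ 0
  · obtain ⟨β', hβ', hne, hne', hi⟩ := h3
    have hlt3 : ip X α β' < 0 := lt_of_le_of_ne (spr X hS α β' hα hβ' hne.symm) hi
    have hlt3' : ip X β' α < 0 := by rw [ip_comm]; exact hlt3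
    have h4 := add_neg gwb int S hαr hβ'.1 hlt3'
    have h5 : ip X β' (α + β) < 0 := by
      rw [ip_add_right]
      have := spr X hS β' β hβ' hβ hne'
      linarith
    have h6 := add_neg gwb int S hab hβ'.1 h5
    right; left
    exact ⟨β, β', hβr, hβ'.1, hnβα, npr_of_le gwb S hβ'.1 hαr hlt3'.le, hab, h4, h6⟩
  push Not at h3
  -- (4)
  by_cases h4 : ∃ γ, Smp X γ ∧ γ ≠ α ∧ γ ≠ β ∧ ip X β γ ≠ 0
  · obtain ⟨γ, hγ, hne, hne', hi⟩ := h4
    have hγr := hγ.1
    have hαγ : ip X α γ = 0 := h3 γ hγ hne hne'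
    have hγα : ip X γ α = 0 := by rw [ip_comm]; exact hαγ
    have hlt4 : ip X β γ < 0 := lt_of_le_of_ne (spr X hS β γ hβ hγ hne'.symm) hi
    have hlt4' : ip X γ β < 0 := by rw [ip_comm]; exact hlt4
    have hbg := add_neg gwb int S hβr hγr hlt4'
    have h5 : ip X γ (α + β) < 0 := by
      rw [ip_add_right, hγα]
      linarith
    have habg := add_neg gwb int S hab hγr h5
    by_cases hκ : IsRt X (β + γ + β)
    · left
      refine ⟨β + γ + β, hκ, add_two gwb int S hαr hκ ?_⟩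
      rw [ip_add_left, ip_add_left, hba, hγα]
      ring
    · right; right
      refine ⟨β, γ, hβr, hγr, hnβα, npr_of_le gwb S hγr hαr hγα.le,
        npr_of_le gwb S hγr hβr hlt4'.le, npr_of_le gwb S hbg hαr ?_, hab, hbg, habg, hκ⟩
      rw [ip_add_left, hba, hγα]
      linarith
  push Not at h4
  -- (5)
  have h5 : ∃ δ, IsRt X δ ∧ δ ≠ α ∧ δ ≠ β ∧ δ ≠ α + β ∧ ¬ (ip X δ α = 0 ∧ ip X δ β = 0) := by
    by_contra hcon
    apply hA2
    refine ⟨α, β, hαr, hβr, hab, npr_of_le gwb S hαr hβr hlt.le, ?_, x, y, hx, hy, hxy⟩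
    intro γ hγ
    by_contra hc
    apply hcon
    push Not at hc
    refine ⟨γ, hγ, hc.1, hc.2.1, hc.2.2.1, ?_⟩
    rintro ⟨h, h'⟩
    exact hc.2.2.2 h h'
  obtain ⟨δ, hδ, hd1, hd2, hd3, hd4⟩ := h5
  have h6 : ∃ a b : ℕ, δ = (a : ℝ) • α + (b : ℝ) • β := by
    have a1 : ∀ γ, Smp X γ → γ ∈ {γ | γ = α ∨ γ = β} ∨ γ ∈ {γ | Smp X γ ∧ γ ≠ α ∧ γ ≠ β} := by
      intro γ hγ
      by_cases h : γ = α
      · left
        exact Or.inl h
      · by_cases h' : γ = β
        · left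
          exact Or.inr h'
        · right
          exact ⟨hγ, h, h'⟩
    have a2 : ∀ γ ∈ {γ | γ = α ∨ γ = β}, Smp X γ := by
      rintro γ (rfl | rfl)
      · exact hα
      · exact hβ
    have a3 : ∀ γ ∈ {γ | Smp X γ ∧ γ ≠ α ∧ γ ≠ β}, Smp X γ := by
      intro γ hγ
      exact hγ.1
    have a4 : ∀ γ ∈ {γ | γ = α ∨ γ = β}, ∀ γ' ∈ {γ | Smp X γ ∧ γ ≠ α ∧ γ ≠ β},
        ip X γ γ' = 0 := by
      intro γ hγ γ' hγ'
      rcases hγ with h | h
      · rw [h]
        exact h3 γ' hγ'.1 hγ'.2.1 hγ'.2.2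
      · rw [h]
        exact h4 γ' hγ'.1 hγ'.2.1 hγ'.2.2
    rcases sup X hS hR _ _ a1 a2 a3 a4 δ hδ with ⟨L, hL, hs⟩ | ⟨L, hL, hs⟩
    · obtain ⟨a, b, hs'⟩ := list_two L (fun l hl => hL l hl)
      exact ⟨a, b, hs.symm.trans hs'⟩
    · exfalso
      apply hd4
      constructor
      · rw [ip_comm, ← hs]
        exact ip_list L (fun l hl => h3 l (hL l hl).1 (hL l hl).2.1 (hL l hl).2.2)
      · rw [ip_comm, ← hs]
        exact ip_list L (fun l hl => h4 l (hL l hl).1 (hL l hl).2.1 (hL l hl).2.2)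
  obtain ⟨a, b, hab5⟩ := h6
  have hδα : ip X α δ = (2 * (a : ℝ) - b) / 2 * ip X α α := by
    rw [hab5, ip_add_right, ip_smul_right, ip_smul_right, hab']
    ring
  have hδβ : ip X β δ = (2 * (b : ℝ) - a) / 2 * ip X α α := by
    rw [hab5, ip_add_right, ip_smul_right, ip_smul_right, hba, hBA]
    ring
  have hδδ : ip X δ δ = ((a : ℝ) ^ 2 - a * b + b ^ 2) * ip X α α := by
    have h7 : ip X ((a : ℝ) • α + (b : ℝ) • β) δ = a * ip X α δ + b * ip X β δ := by
      rw [ip_add_left, ip_smul_left, ip_smul_left]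
    rw [← hab5, hδα, hδβ] at h7
    rw [h7]
    ring
  obtain ⟨n1, hn1'⟩ := integ gwb int S hδ hαr
  obtain ⟨n2, hn2'⟩ := integ gwb int S hδ hβr
  have hDpos := ip_self_pos (ne_zero gwb S hδ)
  have hqpos : (0 : ℝ) < (a : ℝ) ^ 2 - a * b + b ^ 2 := by
    rw [hδδ] at hDpos
    exact (pos_iff_pos_of_mul_pos hDpos).mpr hA
  have e1 : (n1 : ℝ) * ((a : ℝ) ^ 2 - a * b + b ^ 2) = 2 * a - b := by
    rw [hδα, hδδ] at hn1'
    have h8 : (n1 * ((a : ℝ) ^ 2 - a * b + b ^ 2)) * ip X α α = (2 * a - b) * ip X α α := by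
      linarith
    exact mul_right_cancel₀ hA.ne' h8
  have e2 : (n2 : ℝ) * ((a : ℝ) ^ 2 - a * b + b ^ 2) = 2 * b - a := by
    rw [hδβ, hδδ] at hn2'
    have h8 : (n2 * ((a : ℝ) ^ 2 - a * b + b ^ 2)) * ip X α α = (2 * b - a) * ip X α α := by
      linarith
    exact mul_right_cancel₀ hA.ne' h8
  have e1' : n1 * ((a : ℤ) ^ 2 - a * b + b ^ 2) = 2 * a - b := by exact_mod_cast e1
  have e2' : n2 * ((a : ℤ) ^ 2 - a * b + b ^ 2) = 2 * b - a := by exact_mod_cast e2
  have hq' : 0 < (a : ℤ) ^ 2 - a * b + b ^ 2 := by exact_mod_cast hqpos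
  rcases arith a b n1 n2 _ rfl hq' e1' e2' with ⟨ha, hb⟩ | ⟨ha, hb⟩ | ⟨ha, hb⟩ | ⟨ha, hb⟩ |
    ⟨ha, hb⟩
  · exfalso
    apply hd1
    rw [hab5, ha, hb]
    simp
  · exfalso
    apply hd2
    rw [hab5, ha, hb]
    simp
  · exfalso
    apply hd3
    rw [hab5, ha, hb]
    simp
  · right; left
    refine ⟨β, β, hβr, hβr, hnβα, hnβα, hab, hab, ?_⟩
    have h9 : α + β + β = δ := by
      rw [hab5, ha, hb]
      push_cast
      rw [one_smul, two_smul]
      abel
    rw [h9]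
    exact hδ
  · left
    refine ⟨β, hβr, ?_⟩
    have h9 : (2 : ℝ) • α + β = δ := by
      rw [hab5, ha, hb]
      push_cast
      rw [one_smul]
    rw [h9]
    exact hδ

end Pool.Agent.QSB.H10
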